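import Pool.Agent.H382R3.KD.Fin1

set_option autoImplicit false

namespace Pool.Agent.Results.MP_23b0f8_an.KestenSufficient

open Pool.Agent.H382R3.KD

/-- **The Kesten condition is sufficient.** For all `D ∈ (0,1)`, irrational `γ` and `x₀` with
`D ∈ γ ℤ + ℤ`, the staircase exists, is unique, and its projection satisfies the diffraction
condition. -/
theorem result (D γ x₀ : ℝ) (h0 : 0 < D) (h1 : D < 1) (hγ : Irrational γ) (hK : Kesten D γ) :
    (∃! p : ℤ → ℤ × ℤ, IsStaircase D γ x₀ p) ∧
      ∀ p : ℤ → ℤ × ℤ, IsStaircase D γ x₀ p → DiffractionCondition (proj D '' Set.range p) :=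
  ⟨stair_unique D γ x₀, fun _ hp => sufficiency h0 h1 hγ hK hp⟩

end Pool.Agent.Results.MP_23b0f8_an.KestenSufficient
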